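import Pool.Agent.Q190.TC.Op

set_option autoImplicit false

open MeasureTheory Set Filter

namespace Pool.Agent.Q190.TC

noncomputable section

lemma K_mul_eq {y u : ℝ} (hy : 1/2 ≤ y) (hu : 1/2 ≤ u) (hu1 : u < 1) :
    K y u * u = u - (Ici y).indicator (fun _ => y) u := by
  have hy0 : 0 < y := by linarith
  have hu0 : 0 < u := by linarith
  have hne : u / y ≠ 0 := (div_pos hu0 hy0).ne'
  unfold K
  by_cases h : y ≤ u
  · rw [indicator_of_mem (by exact h)]
    have h1 : ⌊u / y⌋ = 1 := by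
      rw [Int.floor_eq_iff]
      constructor
      · rw [le_div_iff₀ hy0]; push_cast; linarith
      · rw [div_lt_iff₀ hy0]; push_cast; linarith
    have h2 : Int.fract (u / y) = u / y - 1 := by
      rw [Int.fract, h1]; norm_num
    rw [h2]
    field_simp
  · rw [indicator_of_notMem (by exact h)]
    push Not at h
    have h2 : Int.fract (u / y) = u / y := by
      rw [Int.fract_eq_self]
      exact ⟨(div_pos hu0 hy0).le, by rw [div_lt_one hy0]; exact h⟩
    rw [h2, div_self hne]
    ring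

lemma piece {p q y : ℝ} (hp : 1/2 ≤ p) (hpq : p ≤ q) (hq : q ≤ 1) (hy : 1/2 ≤ y) :
    ∫ u, K y u * (u * (Ico p q).indicator (fun _ => (1:ℝ)) u) ∂mu
      = (q^2 - p^2)/2 - y * max (q - max p y) 0 := by
  have e1 : (fun u => K y u * (u * (Ico p q).indicator (fun _ => (1:ℝ)) u))
      = (Ico p q).indicator (fun u => u - (Ici y).indicator (fun _ => y) u) := by
    funext u
    by_cases hu : u ∈ Ico p q
    · rw [indicator_of_mem hu, indicator_of_mem hu, mul_one]
      exact K_mul_eq hy (hp.trans hu.1) (hu.2.trans_le hq)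
    · rw [indicator_of_notMem hu, indicator_of_notMem hu]; simp
  rw [e1, integral_indicator measurableSet_Ico, Measure.restrict_restrict measurableSet_Ico]
  have e2 : Ico p q ∩ Icc 0 1 = Ico p q := by
    apply inter_eq_left.2
    intro u hu
    exact ⟨by linarith [hu.1], by linarith [hu.2]⟩
  rw [e2, integral_sub]
  · congr 1
    · rw [← integral_Icc_eq_integral_Ico, integral_Icc_eq_integral_Ioc,
        ← intervalIntegral.integral_of_le hpq]
      simp
    · rw [integral_indicator measurableSet_Ici, Measure.restrict_restrict measurableSet_Ici]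
      have e3 : Ici y ∩ Ico p q = Ico (max p y) q := by
        ext u
        simp only [mem_inter_iff, mem_Ici, mem_Ico, max_le_iff]
        tauto
      rw [e3]
      simp [mul_comm]
  · have : IntegrableOn (fun u : ℝ => u) (Icc p q) := continuousOn_id.integrableOn_Icc
    exact this.mono_set Ico_subset_Icc_self
  · have : IsFiniteMeasure ((volume : Measure ℝ).restrict (Ico p q)) := ⟨by simp⟩
    exact (integrable_const _).indicator measurableSet_Ici

variable (N : ℕ)

/-- step -/
def hh : ℝ := 1 / (2 * N)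

/-- left end points -/
def xx (k : ℕ) : ℝ := 1/2 + k * hh N

variable {N}

lemma hh_pos (hN : 0 < N) : 0 < hh N := by
  unfold hh
  have : (0:ℝ) < N := by exact_mod_cast hN
  positivity

lemma xx_ge (hN : 0 < N) (k : ℕ) : 1/2 ≤ xx N k := by
  unfold xx
  have := hh_pos hN
  have : 0 ≤ (k:ℝ) * hh N := by positivity
  linarith

lemma xx_le (hN : 0 < N) {k : ℕ} (hk : k < N) : xx N k + hh N ≤ 1 := by
  unfold xx
  have h1 : (0:ℝ) < N := by exact_mod_cast hN
  have h2 : (k:ℝ) + 1 ≤ N := by exact_mod_cast hk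
  have h3 : ((k:ℝ) + 1) * hh N ≤ N * hh N := by
    apply mul_le_mul_of_nonneg_right h2 (hh_pos hN).le
  have h4 : N * hh N = 1/2 := by unfold hh; field_simp
  nlinarith

lemma xx_sep (hN : 0 < N) {k j : ℕ} (h : k < j) : xx N k + hh N ≤ xx N j := by
  unfold xx
  have h2 : (k:ℝ) + 1 ≤ j := by exact_mod_cast h
  have := mul_le_mul_of_nonneg_right h2 (hh_pos hN).le
  nlinarith

/-- the interval `J_k`. -/
def J (N k : ℕ) : Set ℝ := Ico (xx N k) (xx N k + hh N)

lemma J_disj (hN : 0 < N) {k j : ℕ} (h : k ≠ j) {u : ℝ} (hu : u ∈ J N j) : u ∉ J N k := by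
  intro hk
  rcases lt_or_gt_of_ne h with h1 | h1
  · have := xx_sep hN h1
    have h2 := hk.2
    have h3 := hu.1
    linarith
  · have := xx_sep hN h1
    have h2 := hk.1
    have h3 := hu.2
    linarith

/-- the sign function of `J_k`. -/
def sg (N k : ℕ) (u : ℝ) : ℝ :=
  (Ico (xx N k) (xx N k + hh N / 2)).indicator (fun _ => (1:ℝ)) u
    - (Ico (xx N k + hh N / 2) (xx N k + hh N)).indicator (fun _ => (1:ℝ)) u

lemma sg_zero (hN : 0 < N) {k : ℕ} {u : ℝ} (hu : u ∉ J N k) : sg N k u = 0 := by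
  unfold sg
  have h0 := hh_pos hN
  rw [indicator_of_notMem, indicator_of_notMem, sub_zero]
  · intro h; exact hu ⟨by linarith [h.1], h.2⟩
  · intro h; exact hu ⟨h.1, by linarith [h.2]⟩

lemma abs_sg_le (N k : ℕ) (u : ℝ) : |sg N k u| ≤ 1 := by
  unfold sg
  by_cases h1 : u ∈ Ico (xx N k) (xx N k + hh N / 2)
  · have h2 : u ∉ Ico (xx N k + hh N / 2) (xx N k + hh N) := fun h => by
      have := h.1; have := h1.2; linarith
    rw [indicator_of_mem h1, indicator_of_notMem h2]; simp
  · rw [indicator_of_notMem h1]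
    by_cases h2 : u ∈ Ico (xx N k + hh N / 2) (xx N k + hh N)
    · rw [indicator_of_mem h2]; simp
    · rw [indicator_of_notMem h2]; simp

lemma measurable_sg (N k : ℕ) : Measurable (sg N k) := by
  unfold sg
  exact (measurable_const.indicator measurableSet_Ico).sub
    (measurable_const.indicator measurableSet_Ico)

/-- auxiliary function -/
def A (N k : ℕ) (y : ℝ) : ℝ :=
  max (xx N k + hh N / 2 - max (xx N k) y) 0
    - max (xx N k + hh N - max (xx N k + hh N / 2) y) 0

lemma K_integrable_real {g : ℝ → ℝ} (hg : Integrable g mu) {y : ℝ} (hy : 0 ≤ y) :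
    Integrable (fun u => K y u * g u) mu := by
  refine hg.bdd_mul (c := 1) ?_ ?_
  · have : Measurable (fun u => K y u) := measurable_K.comp (measurable_const.prodMk measurable_id)
    exact this.aestronglyMeasurable
  · filter_upwards [ae_restrict_mem measurableSet_Icc] with u hu
    rw [Real.norm_of_nonneg (K_nonneg hy hu.1)]
    exact K_le_one hy hu.1

lemma ind_integrable (p q : ℝ) :
    Integrable (fun u => u * (Ico p q).indicator (fun _ => (1:ℝ)) u) mu := by
  have h1 : Integrable (fun u : ℝ => u) mu := continuousOn_id.integrableOn_Icc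
  refine h1.mul_bdd (c := 1) ?_ ?_
  · exact (measurable_const.indicator measurableSet_Ico).aestronglyMeasurable
  · refine Eventually.of_forall fun u => ?_
    by_cases h1 : u ∈ Ico p q
    · rw [indicator_of_mem h1]; simp
    · rw [indicator_of_notMem h1]; simp

lemma T_sg (hN : 0 < N) {k : ℕ} (hk : k < N) {y : ℝ} (hy : 1/2 ≤ y) :
    ∫ u, K y u * (u * sg N k u) ∂mu = - hh N ^ 2 / 4 - y * A N k y := by
  have e1 : ∀ u, K y u * (u * sg N k u)
      = K y u * (u * (Ico (xx N k) (xx N k + hh N / 2)).indicator (fun _ => (1:ℝ)) u)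
        - K y u * (u * (Ico (xx N k + hh N / 2) (xx N k + hh N)).indicator (fun _ => (1:ℝ)) u) := by
    intro u; unfold sg; ring
  have h0 := hh_pos hN
  have h1 := xx_ge hN k
  have h2 := xx_le hN hk
  have hy0 : 0 ≤ y := by linarith
  simp_rw [e1]
  rw [integral_sub (K_integrable_real (ind_integrable _ _) hy0)
    (K_integrable_real (ind_integrable _ _) hy0)]
  rw [piece h1 (by linarith) (by linarith) hy, piece (by linarith) (by linarith) h2 hy]
  unfold A
  ring

lemma A_zero (hN : 0 < N) {k : ℕ} {y : ℝ} (hy : y ∉ J N k) : A N k y = 0 := by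
  have h0 := hh_pos hN
  unfold A
  by_cases h : y < xx N k
  · rw [max_eq_left h.le, max_eq_left (by linarith : y ≤ xx N k + hh N / 2),
      max_eq_left (by linarith), max_eq_left (by linarith)]
    ring
  · push Not at h
    have h2 : xx N k + hh N ≤ y := by
      by_contra h3
      push Not at h3
      exact hy ⟨h, h3⟩
    rw [max_eq_right h, max_eq_right (by linarith : xx N k + hh N / 2 ≤ y),
      max_eq_right (by linarith), max_eq_right (by linarith)]
    ring

/-- the middle part of `J_k`. -/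
def M (N k : ℕ) : Set ℝ := Ico (xx N k + hh N / 4) (xx N k + 3 * hh N / 4)

lemma M_sub (hN : 0 < N) (k : ℕ) : M N k ⊆ J N k := by
  intro u hu
  have h0 := hh_pos hN
  exact ⟨by linarith [hu.1], by linarith [hu.2]⟩

lemma A_big (hN : 0 < N) {k : ℕ} {y : ℝ} (hy : y ∈ M N k) : A N k y ≤ - (hh N / 4) := by
  have h0 := hh_pos hN
  have h1 := hy.1
  have h2 := hy.2
  unfold A
  have h3 : xx N k ≤ y := by linarith
  rw [max_eq_right h3]
  by_cases h4 : y ≤ xx N k + hh N / 2
  · rw [max_eq_left (by linarith), max_eq_left h4, max_eq_left (by linarith)]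
    linarith
  · push Not at h4
    rw [max_eq_right (by linarith), max_eq_right h4.le, max_eq_left (by linarith)]
    linarith

/-- The test functions. -/
def fv (a : Fin N → ℂ) (u : ℝ) : ℂ := ∑ k : Fin N, a k * ((u * sg N k u : ℝ) : ℂ)

lemma usg_integrable (N k : ℕ) : Integrable (fun u => u * sg N k u) mu := by
  have h1 : Integrable (fun u : ℝ => u) mu := continuousOn_id.integrableOn_Icc
  refine h1.mul_bdd (c := 1) (measurable_sg N k).aestronglyMeasurable ?_
  exact Eventually.of_forall fun u => by simpa using abs_sg_le N k u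

lemma Tfun_fv (hN : 0 < N) (a : Fin N → ℂ) (ha : ∑ k, a k = 0) {y : ℝ} (hy : 1/2 ≤ y) :
    Tfun (fv a) y = - (y : ℂ) * ∑ k : Fin N, a k * (A N k y : ℂ) := by
  unfold Tfun fv
  have hy0 : 0 ≤ y := by linarith
  have e1 : ∀ u, (K y u : ℂ) * ∑ k : Fin N, a k * ((u * sg N k u : ℝ) : ℂ)
      = ∑ k : Fin N, a k * ((K y u * (u * sg N k u) : ℝ) : ℂ) := by
    intro u
    rw [Finset.mul_sum]
    refine Finset.sum_congr rfl fun k _ => ?_
    push_cast; ring
  simp_rw [e1]
  rw [integral_finsetSum]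
  · have e2 : ∀ k : Fin N, ∫ u, a k * ((K y u * (u * sg N k u) : ℝ) : ℂ) ∂mu
        = a k * (- (hh N : ℂ) ^ 2 / 4) - y * (a k * (A N k y : ℂ)) := by
      intro k
      rw [integral_const_mul, integral_complex_ofReal, T_sg hN k.2 hy]
      push_cast; ring
    simp_rw [e2]
    rw [Finset.sum_sub_distrib, ← Finset.sum_mul, ha, ← Finset.mul_sum]
    ring
  · intro k _
    exact (K_integrable_real (usg_integrable N k) hy0).ofReal.const_mul _

lemma Tfun_fv_lower (hN : 0 < N) (a : Fin N → ℂ) (ha : ∑ k, a k = 0) (j : Fin N) {y : ℝ}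
    (hy : y ∈ M N j) : ‖a j‖ * (hh N / 8) ≤ ‖Tfun (fv a) y‖ := by
  have hy2 : y ∈ J N j := M_sub hN j hy
  have hy3 : 1/2 ≤ y := (xx_ge hN j).trans hy2.1
  rw [Tfun_fv hN a ha hy3, Finset.sum_eq_single j]
  · rw [norm_mul, norm_neg, norm_mul, Complex.norm_real, Complex.norm_real,
      Real.norm_of_nonneg (by linarith)]
    have h1 := A_big hN hy
    have h0 := hh_pos hN
    have h2 : ‖A N j y‖ = - A N j y := by
      rw [Real.norm_eq_abs, abs_of_nonpos (by linarith)]
    rw [h2]
    have h3 : 0 ≤ ‖a j‖ := norm_nonneg _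
    have h4 : hh N / 4 ≤ - A N j y := by linarith
    have h5 : ‖a j‖ * (hh N / 4) ≤ ‖a j‖ * (- A N j y) := mul_le_mul_of_nonneg_left h4 h3
    have h6 : 0 ≤ ‖a j‖ * (- A N j y) := le_trans (by positivity) h5
    nlinarith
  · intro k _ hk
    rw [A_zero hN (J_disj hN (fun h => hk (Fin.ext h)) hy2)]
    simp
  · intro h; exact absurd (Finset.mem_univ _) h

lemma norm_fv_sq_le (hN : 0 < N) (a : Fin N → ℂ) {u : ℝ} (hu : u ∈ Icc (0:ℝ) 1) :
    ‖fv a u‖ ^ 2 ≤ ∑ k : Fin N, (J N k).indicator (fun _ => ‖a k‖ ^ 2) u := by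
  by_cases h : ∃ j : Fin N, u ∈ J N j
  · obtain ⟨j, hj⟩ := h
    have e1 : fv a u = a j * ((u * sg N j u : ℝ) : ℂ) := by
      unfold fv
      rw [Finset.sum_eq_single j]
      · intro k _ hk
        rw [sg_zero hN (J_disj hN (fun h => hk (Fin.ext h)) hj)]; simp
      · intro h; exact absurd (Finset.mem_univ _) h
    have e2 : ∑ k : Fin N, (J N k).indicator (fun _ => ‖a k‖ ^ 2) u = ‖a j‖ ^ 2 := by
      rw [Finset.sum_eq_single j]
      · rw [indicator_of_mem hj]
      · intro k _ hk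
        rw [indicator_of_notMem (J_disj hN (fun h => hk (Fin.ext h)) hj)]
      · intro h; exact absurd (Finset.mem_univ _) h
    rw [e1, e2, norm_mul, Complex.norm_real]
    have h1 : ‖u * sg N j u‖ ≤ 1 := by
      rw [norm_mul, Real.norm_eq_abs, Real.norm_eq_abs, abs_of_nonneg hu.1]
      exact mul_le_one₀ hu.2 (abs_nonneg _) (abs_sg_le _ _ _)
    have h2 : ‖a j‖ * ‖u * sg N j u‖ ≤ ‖a j‖ := mul_le_of_le_one_right (norm_nonneg _) h1
    exact pow_le_pow_left₀ (by positivity) h2 2
  · push Not at h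
    have e1 : fv a u = 0 := by
      unfold fv
      apply Finset.sum_eq_zero
      intro k _
      rw [sg_zero hN (h k)]; simp
    rw [e1]
    have : 0 ≤ ∑ k : Fin N, (J N k).indicator (fun _ => ‖a k‖ ^ 2) u :=
      Finset.sum_nonneg fun k _ => indicator_nonneg (fun _ _ => by positivity) _
    simpa using this

lemma Tfun_fv_sq_ge (hN : 0 < N) (a : Fin N → ℂ) (ha : ∑ k, a k = 0) (y : ℝ) :
    ∑ k : Fin N, (M N k).indicator (fun _ => (‖a k‖ * (hh N / 8)) ^ 2) y ≤ ‖Tfun (fv a) y‖ ^ 2 := by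
  have h0 := hh_pos hN
  by_cases h : ∃ j : Fin N, y ∈ M N j
  · obtain ⟨j, hj⟩ := h
    have e2 : ∑ k : Fin N, (M N k).indicator (fun _ => (‖a k‖ * (hh N / 8)) ^ 2) y
        = (‖a j‖ * (hh N / 8)) ^ 2 := by
      rw [Finset.sum_eq_single j]
      · rw [indicator_of_mem hj]
      · intro k _ hk
        rw [indicator_of_notMem]
        intro h
        exact J_disj hN (fun h => hk (Fin.ext h)) (M_sub hN j hj) (M_sub hN k h)
      · intro h; exact absurd (Finset.mem_univ _) h
    rw [e2]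
    exact pow_le_pow_left₀ (by positivity) (Tfun_fv_lower hN a ha j hj) 2
  · push Not at h
    rw [Finset.sum_eq_zero]
    · positivity
    · intro k _
      rw [indicator_of_notMem (h k)]

lemma norm_sq_L2 (f : L2) : ‖f‖ ^ 2 = ∫ x, ‖f x‖ ^ 2 ∂mu := by
  have h := inner_self_eq_norm_sq (𝕜 := ℂ) f
  rw [← h, MeasureTheory.L2.inner_def]
  have e : ∀ x, inner ℂ (f x) (f x) = ((‖f x‖ ^ 2 : ℝ) : ℂ) := by
    intro x
    rw [inner_self_eq_norm_sq_to_K]; norm_cast
  simp_rw [e]
  rw [integral_complex_ofReal]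
  simp

lemma memLp_fv (a : Fin N → ℂ) : MemLp (fv a) 2 mu := by
  unfold fv
  apply memLp_finsetSum
  intro k _
  apply MemLp.const_mul
  apply MemLp.ofReal
  refine MemLp.of_bound ?_ 1 ?_
  · exact (measurable_id.mul (measurable_sg N k)).aestronglyMeasurable
  · filter_upwards [ae_restrict_mem measurableSet_Icc] with u hu
    change ‖u * sg N k u‖ ≤ 1
    rw [norm_mul, Real.norm_eq_abs, Real.norm_eq_abs, abs_of_nonneg hu.1]
    exact mul_le_one₀ hu.2 (abs_nonneg _) (abs_sg_le _ _ _)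

/-- The linear map `a ↦ f_a`. -/
def fL : (Fin N → ℂ) →ₗ[ℂ] L2 where
  toFun a := (memLp_fv a).toLp (fv a)
  map_add' a b := by
    rw [← MemLp.toLp_add]
    apply (MemLp.toLp_eq_toLp_iff _ _).2
    refine Eventually.of_forall fun y => ?_
    simp only [fv, Pi.add_apply, add_mul, Finset.sum_add_distrib]
  map_smul' c a := by
    rw [RingHom.id_apply, ← MemLp.toLp_const_smul]
    apply (MemLp.toLp_eq_toLp_iff _ _).2
    refine Eventually.of_forall fun y => ?_
    simp only [fv, Pi.smul_apply, smul_eq_mul, Finset.mul_sum]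
    exact Finset.sum_congr rfl fun k _ => by ring

lemma real_ind {s : Set ℝ} (hs : MeasurableSet s) (hs1 : s ⊆ Icc 0 1) (c : ℝ) :
    ∫ x, s.indicator (fun _ => c) x ∂mu = (volume s).toReal * c := by
  rw [integral_indicator hs, Measure.restrict_restrict hs, inter_eq_left.2 hs1]
  simp [Measure.real]

lemma norm_fL_le (hN : 0 < N) (a : Fin N → ℂ) :
    ‖fL a‖ ^ 2 ≤ hh N * ∑ k, ‖a k‖ ^ 2 := by
  have h0 := hh_pos hN
  rw [norm_sq_L2]
  have h1 : ∫ x, ‖(fL a : ℝ → ℂ) x‖ ^ 2 ∂mu = ∫ x, ‖fv a x‖ ^ 2 ∂mu := by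
    apply integral_congr_ae
    filter_upwards [(memLp_fv a).coeFn_toLp] with x hx
    have : (fL a : ℝ → ℂ) x = fv a x := hx
    rw [this]
  rw [h1]
  have hint : Integrable (fun x => ‖fv a x‖ ^ 2) mu := by
    have := (memLp_fv a).integrable_norm_rpow (by norm_num) (by norm_num)
    simpa using this
  have hint2 : ∀ k : Fin N, Integrable ((J N k).indicator (fun _ => ‖a k‖ ^ 2)) mu := by
    intro k
    have : IsProbabilityMeasure mu := ⟨by simp⟩
    exact (integrable_const _).indicator measurableSet_Ico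
  calc ∫ x, ‖fv a x‖ ^ 2 ∂mu
      ≤ ∫ x, ∑ k : Fin N, (J N k).indicator (fun _ => ‖a k‖ ^ 2) x ∂mu := by
        apply integral_mono_ae hint (integrable_finsetSum _ fun k _ => hint2 k)
        filter_upwards [ae_restrict_mem measurableSet_Icc] with u hu
        exact norm_fv_sq_le hN a hu
    _ = ∑ k : Fin N, hh N * ‖a k‖ ^ 2 := by
        rw [integral_finsetSum _ fun k _ => hint2 k]
        refine Finset.sum_congr rfl fun k _ => ?_
        unfold J
        rw [real_ind measurableSet_Ico]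
        · congr 1
          rw [Real.volume_Ico]
          simp [h0.le]
        · intro u hu
          have h1 := xx_ge hN k
          have h2 := xx_le hN k.2
          exact ⟨by linarith [hu.1], by linarith [hu.2]⟩
    _ = hh N * ∑ k, ‖a k‖ ^ 2 := by rw [Finset.mul_sum]

lemma norm_T_fL_ge (hN : 0 < N) (a : Fin N → ℂ) (ha : ∑ k, a k = 0) :
    hh N / 2 * (hh N / 8) ^ 2 * ∑ k, ‖a k‖ ^ 2 ≤ ‖T (fL a)‖ ^ 2 := by
  have h0 := hh_pos hN
  rw [norm_sq_L2]
  have h1 : ∫ x, ‖(T (fL a) : ℝ → ℂ) x‖ ^ 2 ∂mu = ∫ x, ‖Tfun (fv a) x‖ ^ 2 ∂mu := by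
    apply integral_congr_ae
    filter_upwards [T_spec (fL a)] with x hx
    rw [hx]
    have h2 : Tfun (fL a : ℝ → ℂ) = Tfun (fv a) := Tfun_congr (memLp_fv a).coeFn_toLp
    rw [← h2]
    rfl
  rw [h1]
  have hint : Integrable (fun x => ‖Tfun (fv a) x‖ ^ 2) mu := by
    have := (memLp_Tfun (memLp_fv a)).integrable_norm_rpow (by norm_num) (by norm_num)
    simpa using this
  have hint2 : ∀ k : Fin N, Integrable ((M N k).indicator
      (fun _ => (‖a k‖ * (hh N / 8)) ^ 2)) mu := by
    intro k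
    have : IsProbabilityMeasure mu := ⟨by simp⟩
    exact (integrable_const _).indicator measurableSet_Ico
  calc hh N / 2 * (hh N / 8) ^ 2 * ∑ k, ‖a k‖ ^ 2
      = ∑ k : Fin N, hh N / 2 * (‖a k‖ * (hh N / 8)) ^ 2 := by
        rw [Finset.mul_sum]
        exact Finset.sum_congr rfl fun k _ => by ring
    _ = ∫ x, ∑ k : Fin N, (M N k).indicator (fun _ => (‖a k‖ * (hh N / 8)) ^ 2) x ∂mu := by
        rw [integral_finsetSum _ fun k _ => hint2 k]
        refine Finset.sum_congr rfl fun k _ => ?_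
        unfold M
        rw [real_ind measurableSet_Ico]
        · congr 1
          rw [Real.volume_Ico, ENNReal.toReal_ofReal (by linarith)]
          ring
        · intro u hu
          have h1 := xx_ge hN k
          have h2 := xx_le hN k.2
          exact ⟨by linarith [hu.1], by linarith [hu.2]⟩
    _ ≤ ∫ x, ‖Tfun (fv a) x‖ ^ 2 ∂mu := by
        apply integral_mono_ae (integrable_finsetSum _ fun k _ => hint2 k) hint
        exact Eventually.of_forall fun y => Tfun_fv_sq_ge hN a ha y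

lemma T_fL_lower (hN : 0 < N) (a : Fin N → ℂ) (ha : ∑ k, a k = 0) :
    hh N / 12 * ‖fL a‖ ≤ ‖T (fL a)‖ := by
  have h0 := hh_pos hN
  apply le_of_sq_le_sq _ (norm_nonneg _)
  have h1 := norm_fL_le hN a
  have h2 := norm_T_fL_ge hN a ha
  have h3 : 0 ≤ ∑ k, ‖a k‖ ^ 2 := Finset.sum_nonneg fun k _ => by positivity
  calc (hh N / 12 * ‖fL a‖) ^ 2 = (hh N / 12) ^ 2 * ‖fL a‖ ^ 2 := by ring
    _ ≤ (hh N / 12) ^ 2 * (hh N * ∑ k, ‖a k‖ ^ 2) := by gcongr
    _ ≤ hh N / 2 * (hh N / 8) ^ 2 * ∑ k, ‖a k‖ ^ 2 := by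
        have : 0 ≤ hh N ^ 3 * ∑ k, ‖a k‖ ^ 2 := by positivity
        nlinarith
    _ ≤ _ := h2

end

end Pool.Agent.Q190.TC
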