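import Pool.Agent.Q190.TC.Low

set_option autoImplicit false

open MeasureTheory Set Filter

namespace Pool.Agent.Q190.TC

noncomputable section

lemma key (n : ℕ) {V : Type*} [AddCommGroup V] [Module ℂ V] [FiniteDimensional ℂ V]
    (hV : Module.finrank ℂ V ≤ n) (Φ : L2 →ₗ[ℂ] V) :
    ∃ f : L2, f ≠ 0 ∧ Φ f = 0 ∧ 1 / (24 * ((n : ℝ) + 2)) * ‖f‖ ≤ ‖T f‖ := by
  have hN : 0 < n + 2 := by omega
  let S : (Fin (n + 2) → ℂ) →ₗ[ℂ] ℂ := ∑ k, LinearMap.proj k
  let Ψ : (Fin (n + 2) → ℂ) →ₗ[ℂ] V × ℂ := (Φ.comp fL).prod S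
  have h1 : Module.finrank ℂ (V × ℂ) < Module.finrank ℂ (Fin (n + 2) → ℂ) := by
    rw [Module.finrank_prod, Module.finrank_self, Module.finrank_fin_fun]
    omega
  have h2 := LinearMap.ker_ne_bot_of_finrank_lt (f := Ψ) h1
  obtain ⟨a, ha, ha0⟩ := Submodule.exists_mem_ne_zero_of_ne_bot h2
  rw [LinearMap.mem_ker] at ha
  have h3 : Φ (fL a) = 0 := congrArg Prod.fst ha
  have h4 : ∑ k, a k = 0 := by
    have : S a = 0 := congrArg Prod.snd ha
    simpa [S] using this
  refine ⟨fL a, ?_, h3, ?_⟩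
  · intro h5
    have h6 := norm_T_fL_ge hN a h4
    rw [h5, map_zero, norm_zero] at h6
    have h7 := hh_pos hN
    obtain ⟨k, hk⟩ : ∃ k, a k ≠ 0 := by
      by_contra h
      push Not at h
      exact ha0 (funext h)
    have h8 : 0 < ∑ k, ‖a k‖ ^ 2 := by
      apply Finset.sum_pos'
      · intro i _; positivity
      · exact ⟨k, Finset.mem_univ _, by positivity⟩
    have : 0 < hh (n + 2) / 2 * (hh (n + 2) / 8) ^ 2 * ∑ k, ‖a k‖ ^ 2 := by positivity
    norm_num at h6
    linarith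
  · have h6 := T_fL_lower hN a h4
    have h7 : hh (n + 2) / 12 = 1 / (24 * ((n : ℝ) + 2)) := by
      unfold hh
      push_cast
      field_simp
      norm_num
    rw [h7] at h6
    exact h6

/-- lower bound for approximation by operators of rank `≤ n`. -/
lemma approx_lower (n : ℕ) (F : L2 →L[ℂ] L2) [FiniteDimensional ℂ F.toLinearMap.range]
    (hF : Module.finrank ℂ F.toLinearMap.range ≤ n) :
    1 / (24 * ((n : ℝ) + 2)) ≤ ‖T - F‖ := by
  obtain ⟨f, hf0, hf1, hf2⟩ := key n hF F.toLinearMap.rangeRestrict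
  have h1 : F f = 0 := by
    have := congrArg Subtype.val hf1
    simpa using this
  have h2 : ‖T f‖ ≤ ‖T - F‖ * ‖f‖ := by
    have := (T - F).le_opNorm f
    simpa [h1] using this
  have h3 : 0 < ‖f‖ := norm_pos_iff.2 hf0
  exact le_of_mul_le_mul_right (hf2.trans h2) h3

section schmidt

variable {H : Type*} [NormedAddCommGroup H] [InnerProductSpace ℂ H] [CompleteSpace H]

/-- If `A*A e_n = s_n² e_n`, `A = 0` on the complement of the `e_n`, `s` is decreasing and `f` is
orthogonal to `e_0, …, e_{m-1}`, then `‖A f‖ ≤ s_m ‖f‖`. -/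
lemma schmidt_upper (A : H →L[ℂ] H) (s : ℕ → ℝ) (e : ℕ → H) (hs : Antitone s)
    (hs0 : ∀ n, 0 ≤ s n) (he : Orthonormal ℂ e)
    (hA : ∀ n, (ContinuousLinearMap.adjoint A) (A (e n)) = ((s n : ℂ) ^ 2) • e n)
    (hker : ∀ x, (∀ n, inner ℂ (e n) x = 0) → A x = 0) (m : ℕ) (f : H)
    (hf : ∀ n < m, inner ℂ (e n) f = 0) : ‖A f‖ ≤ s m * ‖f‖ := by
  let W0 : Submodule ℂ H := Submodule.span ℂ (e '' {n | m ≤ n})
  let W : Submodule ℂ H := W0.topologicalClosure
  have hWc : IsClosed (W : Set H) := W0.isClosed_topologicalClosure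
  have : CompleteSpace W := hWc.completeSpace_coe
  -- the bound on `W0`
  have hb0 : ∀ x ∈ W0, ‖A x‖ ≤ s m * ‖x‖ := by
    intro x hx
    obtain ⟨l, hl, rfl⟩ := (Finsupp.mem_span_image_iff_linearCombination ℂ).1 hx
    rw [Finsupp.mem_supported] at hl
    have e0 : Finsupp.linearCombination ℂ e l = ∑ i ∈ l.support, l i • e i := by
      rw [Finsupp.linearCombination_apply, Finsupp.sum]
    rw [e0]
    have hcc : ∀ z : ℂ, (starRingEnd ℂ) z * z = ((‖z‖ ^ 2 : ℝ) : ℂ) := by
      intro z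
      rw [Complex.conj_mul']; norm_cast
    have h1 : ‖∑ i ∈ l.support, l i • e i‖ ^ 2 = ∑ i ∈ l.support, ‖l i‖ ^ 2 := by
      rw [← inner_self_eq_norm_sq (𝕜 := ℂ), he.inner_sum]
      simp_rw [hcc]
      rw [← Complex.ofReal_sum]
      exact Complex.ofReal_re _
    have h2 : ‖A (∑ i ∈ l.support, l i • e i)‖ ^ 2
        = ∑ i ∈ l.support, (s i) ^ 2 * ‖l i‖ ^ 2 := by
      rw [← inner_self_eq_norm_sq (𝕜 := ℂ), ← ContinuousLinearMap.adjoint_inner_left]
      have e3 : (ContinuousLinearMap.adjoint A) (A (∑ i ∈ l.support, l i • e i))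
          = ∑ i ∈ l.support, (l i * (s i : ℂ) ^ 2) • e i := by
        rw [map_sum, map_sum]
        refine Finset.sum_congr rfl fun i _ => ?_
        rw [map_smul, map_smul, hA, smul_smul]
      rw [e3, he.inner_sum]
      have e4 : ∀ i, (starRingEnd ℂ) (l i * (s i : ℂ) ^ 2) * l i
          = (((s i) ^ 2 * ‖l i‖ ^ 2 : ℝ) : ℂ) := by
        intro i
        have := hcc (l i)
        rw [map_mul, map_pow, Complex.conj_ofReal]
        push_cast at this ⊢
        rw [mul_right_comm, this]; ring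
      simp_rw [e4]
      rw [← Complex.ofReal_sum]
      exact Complex.ofReal_re _
    apply le_of_sq_le_sq _ (mul_nonneg (hs0 m) (norm_nonneg _))
    rw [h2, mul_pow, h1, Finset.mul_sum]
    refine Finset.sum_le_sum fun i hi => ?_
    have h3 : m ≤ i := hl hi
    have h4 := hs h3
    have h5 := hs0 i
    gcongr
  have hb : ∀ x ∈ W, ‖A x‖ ≤ s m * ‖x‖ := by
    intro x hx
    have hcl : IsClosed {x : H | ‖A x‖ ≤ s m * ‖x‖} :=
      isClosed_le (A.continuous.norm) (continuous_const.mul continuous_norm)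
    have : (W : Set H) ⊆ {x : H | ‖A x‖ ≤ s m * ‖x‖} :=
      closure_minimal (fun x hx => hb0 x hx) hcl
    exact this hx
  have heW : ∀ n, m ≤ n → e n ∈ W := fun n hn =>
    W0.le_topologicalClosure (Submodule.subset_span ⟨n, hn, rfl⟩)
  -- decompose `f`
  let p : H := (W.orthogonalProjectionOnto f : H)
  have hp : p ∈ W := (W.orthogonalProjectionOnto f).2
  have hr : f - p ∈ Wᗮ := Submodule.sub_starProjection_mem_orthogonal (K := W) f
  have hr0 : A (f - p) = 0 := by
    apply hker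
    intro n
    by_cases hn : m ≤ n
    · exact hr (e n) (heW n hn)
    · push Not at hn
      rw [inner_sub_right, hf n hn, zero_sub, neg_eq_zero]
      -- `e n ⟂ W`
      have h6 : W ≤ (Submodule.span ℂ {e n})ᗮ := by
        apply Submodule.topologicalClosure_minimal _ _ (Submodule.isClosed_orthogonal _)
        apply Submodule.span_le.2
        rintro _ ⟨k, hk, rfl⟩
        rw [SetLike.mem_coe, Submodule.mem_orthogonal_singleton_iff_inner_right]
        exact he.2 (by intro h; rw [h] at hn; exact absurd hk (not_le.2 hn))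
      exact (Submodule.mem_orthogonal_singleton_iff_inner_right).1 (h6 hp)
  have h7 : A f = A p := by
    have : A f - A p = 0 := by rw [← map_sub]; exact hr0
    exact sub_eq_zero.1 this
  rw [h7]
  refine (hb p hp).trans ?_
  have h8 : ‖p‖ ≤ ‖f‖ := by
    have := W.orthogonalProjectionOnto_norm_le
    have h9 := (W.orthogonalProjectionOnto).le_opNorm f
    calc ‖p‖ = ‖W.orthogonalProjectionOnto f‖ := rfl
      _ ≤ ‖W.orthogonalProjectionOnto‖ * ‖f‖ := h9
      _ ≤ 1 * ‖f‖ := by gcongr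
      _ = ‖f‖ := one_mul _
  exact mul_le_mul_of_nonneg_left h8 (hs0 m)

end schmidt

/-- lower bound for the eigenvalues of `(T*T)^{1/2}`. -/
lemma schmidt_lower (s : ℕ → ℝ) (e : ℕ → L2) (hs : Antitone s)
    (hs0 : ∀ n, 0 ≤ s n) (he : Orthonormal ℂ e)
    (hA : ∀ n, (ContinuousLinearMap.adjoint T) (T (e n)) = ((s n : ℂ) ^ 2) • e n)
    (hker : ∀ x, (∀ n, inner ℂ (e n) x = 0) → T x = 0) (m : ℕ) :
    1 / (24 * ((m : ℝ) + 2)) ≤ s m := by
  let Φ : L2 →ₗ[ℂ] (Fin m → ℂ) := LinearMap.pi fun i => (innerSL ℂ (e i)).toLinearMap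
  obtain ⟨f, hf0, hf1, hf2⟩ := key m (V := Fin m → ℂ) (by simp) Φ
  have h1 : ∀ n < m, inner ℂ (e n) f = 0 := by
    intro n hn
    have := congrFun hf1 ⟨n, hn⟩
    simpa [Φ] using this
  have h2 := schmidt_upper T s e hs hs0 he hA hker m f h1
  exact le_of_mul_le_mul_right (hf2.trans h2) (norm_pos_iff.2 hf0)

lemma not_summable_of_lower (a : ℕ → ℝ) (ha : ∀ n : ℕ, 1 / (24 * ((n : ℝ) + 2)) ≤ a n) :
    ¬ Summable a := by
  intro h
  have h1 : Summable (fun n : ℕ => 1 / (24 * ((n : ℝ) + 2))) :=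
    Summable.of_nonneg_of_le (fun n => by positivity) ha h
  have h2 : Summable (fun n : ℕ => 1 / ((n : ℝ) + 2)) := by
    have := h1.mul_left 24
    refine this.congr fun n => ?_
    field_simp
  have h3 : Summable (fun n : ℕ => 1 / ((n : ℝ))) := by
    rw [← summable_nat_add_iff 2]
    refine h2.congr fun n => ?_
    push_cast; rfl
  exact Real.not_summable_one_div_natCast h3

end

end Pool.Agent.Q190.TC
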