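import Mathlib

set_option autoImplicit false

open MeasureTheory Set Filter

namespace Pool.Agent.Q190.TC

noncomputable section

/-- Lebesgue measure on `[0,1]`. -/
abbrev mu : Measure ℝ := (volume : Measure ℝ).restrict (Icc 0 1)

/-- The kernel. -/
def K (y u : ℝ) : ℝ := Int.fract (u / y) / (u / y)

lemma measurable_K : Measurable (fun p : ℝ × ℝ => K p.1 p.2) := by
  unfold K
  have h : Measurable (fun p : ℝ × ℝ => p.2 / p.1) := measurable_snd.div measurable_fst
  exact (measurable_fract.comp h).div h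

lemma K_nonneg {y u : ℝ} (hy : 0 ≤ y) (hu : 0 ≤ u) : 0 ≤ K y u :=
  div_nonneg (Int.fract_nonneg _) (div_nonneg hu hy)

lemma K_le_one {y u : ℝ} (hy : 0 ≤ y) (hu : 0 ≤ u) : K y u ≤ 1 := by
  unfold K
  have h0 : 0 ≤ u / y := div_nonneg hu hy
  apply div_le_one_of_le₀ _ h0
  have := Int.floor_nonneg.2 h0
  have h2 : (0:ℝ) ≤ (⌊u / y⌋ : ℝ) := by exact_mod_cast this
  have h3 := Int.self_sub_floor (u / y)
  linarith

lemma norm_K_le {y u : ℝ} (hy : 0 ≤ y) (hu : 0 ≤ u) : ‖(K y u : ℂ)‖ ≤ 1 := by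
  rw [Complex.norm_real, Real.norm_of_nonneg (K_nonneg hy hu)]
  exact K_le_one hy hu

/-- The function `T h`. -/
def Tfun (h : ℝ → ℂ) (y : ℝ) : ℂ := ∫ u, (K y u : ℂ) * h u ∂mu

lemma integrable_of_memLp {h : ℝ → ℂ} (hh : MemLp h 2 mu) : Integrable h mu :=
  hh.integrable (by norm_num)

lemma aesm {h : ℝ → ℂ} (hh : AEStronglyMeasurable h mu) :
    AEStronglyMeasurable (Tfun h) mu := by
  unfold Tfun
  have h1 : AEStronglyMeasurable (fun p : ℝ × ℝ => (K p.1 p.2 : ℂ) * h p.2) (mu.prod mu) := by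
    apply AEStronglyMeasurable.mul
    · exact (Complex.measurable_ofReal.comp measurable_K).aestronglyMeasurable
    · exact hh.comp_snd
  exact h1.integral_prod_right'

lemma Kh_integrable {h : ℝ → ℂ} (hh : Integrable h mu) {y : ℝ} (hy : 0 ≤ y) :
    Integrable (fun u => (K y u : ℂ) * h u) mu := by
  refine hh.bdd_mul (c := 1) ?_ ?_
  · have : Measurable (fun u => K y u) := measurable_K.comp (measurable_const.prodMk measurable_id)
    exact (Complex.measurable_ofReal.comp this).aestronglyMeasurable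
  · filter_upwards [ae_restrict_mem measurableSet_Icc] with u hu
    exact norm_K_le hy hu.1

lemma norm_Tfun_le {h : ℝ → ℂ} (hh : Integrable h mu) {y : ℝ} (hy : 0 ≤ y) :
    ‖Tfun h y‖ ≤ ∫ u, ‖h u‖ ∂mu := by
  unfold Tfun
  refine (norm_integral_le_integral_norm _).trans ?_
  refine integral_mono_ae (Kh_integrable hh hy).norm hh.norm ?_
  filter_upwards [ae_restrict_mem measurableSet_Icc] with u hu
  rw [norm_mul]
  exact mul_le_of_le_one_left (norm_nonneg _) (norm_K_le hy hu.1)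

lemma memLp_Tfun {h : ℝ → ℂ} (hh : MemLp h 2 mu) : MemLp (Tfun h) 2 mu := by
  refine MemLp.of_bound (aesm hh.1) (∫ u, ‖h u‖ ∂mu) ?_
  filter_upwards [ae_restrict_mem measurableSet_Icc] with y hy
  exact norm_Tfun_le (integrable_of_memLp hh) hy.1

lemma Tfun_congr {f g : ℝ → ℂ} (h : f =ᵐ[mu] g) : Tfun f = Tfun g := by
  funext y
  unfold Tfun
  apply integral_congr_ae
  filter_upwards [h] with u hu
  simp only [hu]

/-- The Hilbert space `L²([0,1])`. -/
abbrev L2 := Lp ℂ 2 mu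

/-- `T` as a linear map. -/
def Tlin : L2 →ₗ[ℂ] L2 where
  toFun h := (memLp_Tfun (Lp.memLp h)).toLp (Tfun h)
  map_add' f g := by
    rw [← MemLp.toLp_add]
    apply (MemLp.toLp_eq_toLp_iff _ _).2
    filter_upwards [ae_restrict_mem measurableSet_Icc] with y hy
    rw [Tfun_congr (Lp.coeFn_add f g)]
    simp only [Tfun, Pi.add_apply]
    rw [← integral_add (Kh_integrable (integrable_of_memLp (Lp.memLp f)) hy.1)
      (Kh_integrable (integrable_of_memLp (Lp.memLp g)) hy.1)]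
    congr 1
    funext u
    ring
  map_smul' c f := by
    rw [RingHom.id_apply, ← MemLp.toLp_const_smul]
    apply (MemLp.toLp_eq_toLp_iff _ _).2
    refine Eventually.of_forall fun y => ?_
    rw [Tfun_congr (Lp.coeFn_smul c f)]
    simp only [Tfun, Pi.smul_apply, smul_eq_mul]
    rw [← integral_const_mul]
    congr 1
    funext u
    ring_nf

lemma L1_le_L2 (h : L2) : ∫ u, ‖h u‖ ∂mu ≤ ‖h‖ := by
  have h1 := integral_norm_eq_lintegral_enorm (Lp.memLp h).1
  rw [h1]
  have h2 : ∫⁻ a, ‖h a‖ₑ ∂mu = eLpNorm h 1 mu := by rw [eLpNorm_one_eq_lintegral_enorm]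
  rw [h2, Lp.norm_def]
  apply ENNReal.toReal_mono (Lp.memLp h).2.ne
  have : IsProbabilityMeasure mu := ⟨by simp⟩
  exact eLpNorm_le_eLpNorm_of_exponent_le (by norm_num) (Lp.memLp h).1

lemma norm_Tlin_le (h : L2) : ‖Tlin h‖ ≤ 1 * ‖h‖ := by
  have : IsProbabilityMeasure mu := ⟨by simp⟩
  rw [one_mul]
  have h0 : (0:ℝ) ≤ ‖h‖ := norm_nonneg _
  have := Lp.norm_le_of_ae_bound (μ := mu) (p := 2) (f := Tlin h) (C := ‖h‖) h0 ?_
  · have h1 : measureUnivNNReal mu = 1 := by
      simp [measureUnivNNReal]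
    rw [h1] at this
    simpa using this
  · filter_upwards [ae_restrict_mem measurableSet_Icc,
      (memLp_Tfun (Lp.memLp h)).coeFn_toLp] with y hy hy2
    have : (Tlin h : ℝ → ℂ) y = Tfun h y := hy2
    rw [this]
    exact (norm_Tfun_le (integrable_of_memLp (Lp.memLp h)) hy.1).trans (L1_le_L2 h)

/-- The operator `T` on `L²([0,1])`. -/
def T : L2 →L[ℂ] L2 := Tlin.mkContinuous 1 norm_Tlin_le

lemma T_spec (h : L2) : (T h : ℝ → ℂ) =ᵐ[mu] fun y => ∫ u, (K y u : ℂ) * h u ∂mu :=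
  (memLp_Tfun (Lp.memLp h)).coeFn_toLp

end

end Pool.Agent.Q190.TC
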